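import Pool.Agent.L0h33.MT.Hist

/-!
# Counting keys
-/

set_option autoImplicit false

namespace Pool.Agent.L0h33.MT

open Pool.Agent.H583R2

attribute [local irreducible] nk K

@[simp] theorem cnt_nil : cnt [] = 0 := rfl

@[simp] theorem cnt_true (l : List Bool) : cnt (true :: l) = cnt l + 1 := by simp [cnt]

@[simp] theorem cnt_false (l : List Bool) : cnt (false :: l) = cnt l := by simp [cnt]

theorem cnt_not (l : List Bool) : cnt (l.map (fun b => !b)) + cnt l = l.length := by
  induction l with
  | nil => rfl
  | cons b l ih => cases b <;> simp <;> omega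

theorem exists_place : ∀ (B : List Bool) (r : ℕ), r < cnt B →
    ∃ i, i < B.length ∧ B.getD i false = true ∧ cnt (B.take i) = r
  | [], r, h => by simp at h
  | true :: B, 0, _ => ⟨0, by simp, by simp, by simp⟩
  | true :: B, r + 1, h => by
    obtain ⟨i, h1, h2, h3⟩ := exists_place B r (by simpa using h)
    exact ⟨i + 1, by simpa using h1, by simpa using h2, by simpa using h3⟩
  | false :: B, r, h => by
    obtain ⟨i, h1, h2, h3⟩ := exists_place B r (by simpa using h)
    exact ⟨i + 1, by simpa using h1, by simpa using h2, by simpa using h3⟩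

theorem getD_ge {l : List Bool} {i : ℕ} (h : l.length ≤ i) : l.getD i false = false := by
  rw [List.getD_eq_getElem?_getD, List.getElem?_eq_none h]
  rfl

theorem spread_getD {n : ℕ} {B t : List Bool} {i : ℕ} (hi : i < 4 * n) :
    (spread n B t).getD i false = (B.getD i false && t.getD (cnt (B.take i)) false) := by
  unfold spread
  rw [List.getD_eq_getElem _ _ (by simpa using hi), List.getElem_map, List.getElem_range]

theorem spread_support {n : ℕ} {B t : List Bool} {i : ℕ}
    (h : (spread n B t).getD i false = true) : i < 4 * n ∧ B.getD i false = true := by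
  have hi : i < 4 * n := by
    by_contra hcon
    rw [getD_ge (by simpa using hcon)] at h
    simp at h
  refine ⟨hi, ?_⟩
  rw [spread_getD hi, Bool.and_eq_true] at h
  exact h.1

theorem marked_inj {l l' : List Bool}
    (h : ∀ i, (l ++ [true]).getD i false = (l' ++ [true]).getD i false) : l = l' := by
  have key : ∀ l l' : List Bool,
      (∀ i, (l ++ [true]).getD i false = (l' ++ [true]).getD i false) → l.length ≤ l'.length := by
    intro l l' h
    by_contra hcon
    have h1 := h l.length
    rw [List.getD_eq_getElem _ _ (by simp), getD_ge (l := l' ++ [true]) (by simp; omega)] at h1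
    simp at h1
  have hl : l.length = l'.length := le_antisymm (key l l' h) (key l' l fun i => (h i).symm)
  refine List.ext_getElem hl fun i h1 h2 => ?_
  have h3 := h i
  rw [List.getD_eq_getElem _ _ (by simp; omega), List.getD_eq_getElem _ _ (by simp; omega),
    List.getElem_append_left h1, List.getElem_append_left h2] at h3
  exact h3

theorem spread_inj {n : ℕ} {B l l' : List Bool} (hB : B.length = 4 * n)
    (h1 : l.length < cnt B) (h2 : l'.length < cnt B)
    (h : spread n B (l ++ [true]) = spread n B (l' ++ [true])) : l = l' := by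
  refine marked_inj fun r => ?_
  by_cases hr : r < cnt B
  · obtain ⟨i, hi, hBi, hc⟩ := exists_place B r hr
    have h3 : (spread n B (l ++ [true])).getD i false = (spread n B (l' ++ [true])).getD i false := by
      rw [h]
    rw [spread_getD (by omega), spread_getD (by omega), hBi, hc] at h3
    simpa using h3
  · rw [getD_ge (by simp; omega), getD_ge (by simp; omega)]

theorem length_str_lt {k m : ℕ} (h : k < 2 ^ m) : (str k).length ≤ m := by
  by_contra hcon
  push Not at hcon
  have h1 := le_idx (str k)
  rw [idx_str] at h1
  have h2 : 2 ^ (m + 1) ≤ 2 ^ (str k).length := Nat.pow_le_pow_right (by norm_num) hcon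
  rw [pow_succ] at h2
  omega

/-- There is a key which is not excluded. -/
theorem exists_key {N n : ℕ} {B : List Bool} (hB : B.length = 4 * n) (hc : 2 * n ≤ cnt B)
    (hn : 1 ≤ n) (hN : 2 ^ (2 * n - 1) ≤ N) {X : List (List Bool)}
    (hX : X.length < 2 ^ (2 * n - 1)) : ∃ w, w ∈ cands N n B ∧ w ∉ X := by
  by_contra hcon
  push Not at hcon
  have hnd : (cands N n B).Nodup := by
    unfold cands
    rw [min_eq_left hN]
    refine List.Nodup.map_on (fun a ha b hb hab => ?_) List.nodup_range
    rw [List.mem_range] at ha hb
    have h1 := length_str_lt ha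
    have h2 := length_str_lt hb
    have h3 := spread_inj hB (by omega) (by omega) hab
    have h4 := congrArg idx h3
    rwa [idx_str, idx_str] at h4
  have h1 := (hnd.subperm (fun w hw => hcon w hw)).length_le
  unfold cands at h1
  rw [List.length_map, List.length_range, min_eq_left hN] at h1
  omega

/-- Polynomials are small compared with the exponential function. -/
theorem poly_lt (P : Polynomial ℕ) : ∀ᶠ n in Filter.atTop, P.eval n < 2 ^ n := by
  have h1 : ∃ C D : ℕ, ∀ n, P.eval n ≤ C * (n + 1) ^ D := by
    induction P using Polynomial.induction_on' with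
    | add p q hp hq =>
      obtain ⟨C, D, hp⟩ := hp
      obtain ⟨C', D', hq⟩ := hq
      refine ⟨C + C', D + D', fun n => ?_⟩
      rw [Polynomial.eval_add, add_mul]
      refine add_le_add ((hp n).trans ?_) ((hq n).trans ?_)
      · exact Nat.mul_le_mul_left _ (Nat.pow_le_pow_right (by omega) (by omega))
      · exact Nat.mul_le_mul_left _ (Nat.pow_le_pow_right (by omega) (by omega))
    | monomial k a =>
      refine ⟨a, k, fun n => ?_⟩
      rw [Polynomial.eval_monomial]
      exact Nat.mul_le_mul_left _ (Nat.pow_le_pow_left (by omega) _)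
  obtain ⟨C, D, h1⟩ := h1
  have h2 : Filter.Tendsto (fun n : ℕ => (n : ℝ) ^ D / 2 ^ n) Filter.atTop (nhds 0) :=
    tendsto_pow_const_div_const_pow_of_one_lt D (by norm_num)
  have h3 : Filter.Tendsto (fun n : ℕ => (2 * C : ℝ) * (((n + 1 : ℕ) : ℝ) ^ D / 2 ^ (n + 1)))
      Filter.atTop (nhds 0) := by
    have := ((Filter.tendsto_add_atTop_iff_nat 1).2 h2).const_mul (2 * C : ℝ)
    simpa using this
  filter_upwards [h3.eventually (gt_mem_nhds (show (0 : ℝ) < 1 by norm_num))] with n hn
  have h4 : (C : ℝ) * ((n + 1 : ℕ) : ℝ) ^ D < 2 ^ n := by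
    rw [pow_succ, ← mul_div_assoc, div_lt_one (by positivity)] at hn
    nlinarith
  have h5 : C * (n + 1) ^ D < 2 ^ n := by exact_mod_cast h4
  exact (h1 n).trans_lt h5

end Pool.Agent.L0h33.MT
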