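import Pool.Agent.H583R2.Expo
import Pool.Agent.NPC.Defs

/-!
# A Turing complete set with keys: definitions

The positions of the set are the strings `pos x t`, which have the following meaning.

* `pos (1 ^ n) (false :: 1 ^ i)`, `i < 4 n`, `n` in the range of the tower function: the bit number
  `i` of the key number `n`.
* `pos x (true :: v)`: is in the set if `v` is the key which is valid for the length of `x`, and `x`
  is in the universal set `K`.
-/

set_option autoImplicit false

namespace Pool.Agent.L0h33.MT

open Pool.Agent.H583R2

/-- What comes after the header `1 ^ e 0`. -/
def rst (u : List Bool) : List Bool := u.drop (dE u + 1)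

/-- The first component of a position. -/
def px (u : List Bool) : List Bool := (rst u).take (dE u)

/-- The second component of a position. -/
def pt (u : List Bool) : List Bool := (rst u).drop (dE u)

/-- The position with the components `x` and `t`. -/
def pos (x t : List Bool) : List Bool := List.replicate x.length true ++ false :: (x ++ t)

/-- The universal set, with a bounded number of steps. -/
def Kc (N : ℕ) (u : List Bool) : Bool :=
  bvF (dE u) (rst (rst u)) (min (2 ^ ((dE u + 1) * ((rst u).length + 1))) N)

/-- The universal set for exponential time. -/
def K (u : List Bool) : Bool :=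
  bvF (dE u) (rst (rst u)) (2 ^ ((dE u + 1) * ((rst u).length + 1)))

/-- The range of the tower function `1, 2, 4, 16, 65536, ...` -/
def isT (n : ℕ) : Bool :=
  (List.range (n + 1)).any (fun j => decide ((fun a => min (2 ^ a) (n + 1))^[j] 1 = n))

/-- The three machines which are considered in stage `j`. -/
def dec (j : ℕ) : Code × Code × Code := decP decCode (decP decCode decCode) (parse (str j))

/-- A history: the pairs of a number and its key, the last one first. -/
abbrev Hist : Type := List (ℕ × List Bool)

/-- The last entry with a number which is at most `l`. -/
def kd (H : Hist) (l : ℕ) : ℕ × List Bool := (H.find? (fun e => decide (e.1 ≤ l))).getD (0, [])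

/-- Membership of the position `q`, as far as it is determined by the history `H` up to `n`; `k` is
the membership of the first component in the universal set. -/
def memB (k : Bool) (n : ℕ) (H : Hist) (q : List Bool) : Bool :=
  decide ((px q).length < n) && (!(pt q).isEmpty &&
    (if (pt q).headD false then ((pt q).tail == (kd H (px q).length).2) && k
    else decide ((kd H (px q).length).1 = (px q).length) &&
      ((px q == List.replicate (px q).length true) &&
        (((pt q).tail == List.replicate (pt q).tail.length true) &&
          (kd H (px q).length).2.getD (pt q).tail.length false))))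

/-- The data of a simulation: number of available steps, stage, history, machine for the set `S`,
oracle algorithm, and the bit which tells whether the oracle is `A ∩ S` or `A \ S`. -/
abbrev Ctx : Type := ℕ × ℕ × Hist × Code × Code × Bool

/-- The number of steps and of rounds. -/
def clk (N n : ℕ) : ℕ := min (2 ^ n) N

/-- The simulated oracle. -/
def oq (C : Ctx) (q : List Bool) : Bool :=
  memB (Kc C.1 (px q)) C.2.1 C.2.2.1 q &&
    ((gv C.2.2.2.1 q (clk C.1 C.2.1) == [true]) == C.2.2.2.2.2)

/-- The next action of the oracle algorithm. -/
def ask (C : Ctx) (z a : List Bool) : List Bool :=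
  gv C.2.2.2.2.1 (Pool.Agent.NPC.pairBits z a) (clk C.1 C.2.1)

/-- One round of the simulation. -/
def stp (C : Ctx) (z a : List Bool) : List Bool :=
  if !((ask C z a).headD true) then a ++ [oq C (ask C z a).tail] else a

/-- The answers after `r` rounds. -/
def ans (C : Ctx) (z : List Bool) (r : ℕ) : List Bool := (stp C z)^[r] []

/-- The keys of the positions which the simulation asks. -/
def qk (C : Ctx) (z : List Bool) : List (List Bool) :=
  (List.range (clk C.1 C.2.1)).map (fun r => (pt (ask C z (ans C z r)).tail).tail)

/-- The output of the simulation. -/
def outb (C : Ctx) (z : List Bool) : Bool := ask C z (ans C z (clk C.1 C.2.1)) == [true, true]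

/-- The place of the bit number `i` of the key number `n`. -/
def zp (n i : ℕ) : List Bool := pos (List.replicate n true) (false :: List.replicate i true)

/-- The number of bits `true`. -/
def cnt (B : List Bool) : ℕ := (B.filter (fun b => b)).length

/-- Which of the places are in `S`. -/
def msk (N n : ℕ) (c : Code) : List Bool :=
  (List.range (4 * n)).map (fun i => gv c (zp n i) (clk N n) == [true])

/-- Are at least half of the places in `S`? -/
def sid (N n : ℕ) (c : Code) : Bool := decide (4 * n ≤ 2 * cnt (msk N n c))

/-- The bits of the key which are used. -/
def bs (N n : ℕ) (c : Code) : List Bool :=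
  if sid N n c then msk N n c else (msk N n c).map (fun b => !b)

/-- The simulation of the stage. -/
def ctx (N n : ℕ) (H : Hist) (c : Code × Code × Code) : Ctx :=
  (N, n, H, c.1, if sid N n c.1 then c.2.1 else c.2.2, !(sid N n c.1))

/-- The key which the oracle algorithm claims. -/
def outs (C : Ctx) (B : List Bool) : List Bool :=
  (List.range (4 * C.2.1)).map (fun i => B.getD i false && outb C (zp C.2.1 i))

/-- The keys which are excluded. -/
def bad (C : Ctx) (B : List Bool) : List (List Bool) :=
  outs C B :: (List.range (4 * C.2.1)).flatMap (fun i => qk C (zp C.2.1 i))

/-- The bits `t` distributed to the places marked by `B`. -/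
def spread (n : ℕ) (B t : List Bool) : List Bool :=
  (List.range (4 * n)).map (fun i => B.getD i false && t.getD (cnt (B.take i)) false)

/-- The candidates for the key. -/
def cands (N n : ℕ) (B : List Bool) : List (List Bool) :=
  (List.range (min (2 ^ (2 * n - 1)) N)).map (fun k => spread n B (str k ++ [true]))

/-- The first candidate which is not excluded. -/
def nkC (C : Ctx) (B : List Bool) : List Bool :=
  ((cands C.1 C.2.1 B).find? (fun w => !((bad C B).any (fun v => v == w)))).getD
    (List.replicate (4 * C.2.1) false)

/-- The next key. -/
def nk (N n : ℕ) (H : Hist) : List Bool :=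
  nkC (ctx N n H (dec H.length)) (bs N n (dec H.length).1)

/-- The history up to `L`. -/
def histC (M L : ℕ) : Hist :=
  (List.range L).foldl (fun H n =>
    if isT n then (n, nk (min (2 ^ ((n + 1) * (n + 1))) M) n H) :: H else H) []

/-- The history up to `L`. -/
def hist (L : ℕ) : Hist :=
  (List.range L).foldl (fun H n =>
    if isT n then (n, nk (2 ^ ((n + 1) * (n + 1))) n H) :: H else H) []

/-- The Turing complete set. -/
def AA : Set (List Bool) := {u | memB (K (px u)) (u.length + 1) (hist (u.length + 1)) u = true}

/-- The decision procedure for `AA`. -/
def prog (p : List Bool × ℕ) : List Bool :=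
  [memB (Kc p.2 (px p.1)) (p.1.length + 1) (histC p.2 (p.1.length + 1)) p.1]

end Pool.Agent.L0h33.MT
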