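import Pool.Agent.L0h33.MT.Exp
import Pool.Agent.H620R2.Gauge.A2
import Pool.Agent.H620R2.GaugeR.Seq
import Pool.Agent.H660R2.NX.UnivSet
import Pool.Agent.Y600.FB.Stm4

/-!
# The set is Turing hard for EXPTIME
-/

set_option autoImplicit false

namespace Pool.Agent.L0h33.MT

open Pool.Agent.NPC
open Pool.Agent.Y600.FB (chi)
open Pool.Agent.H620R2.Gauge (Alg IsP IsFP Oracle)
open Pool.Agent.H620R2.Gauge (IsFP.tt IsFP.comp)
open Pool.Agent.H820R2.SS (InEXPTIME)
open Pool.Agent.H660R2.NX

attribute [local irreducible] nk K unpair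

/-- The last tower number which is at most `l`. -/
def lst (l : ℕ) : ℕ := (((List.range (l + 1)).filter inTow).reverse.head?).getD 0

theorem lst_self (j : ℕ) : lst (tow j) = tow j := by
  unfold lst
  rw [List.range_succ, List.filter_append, List.reverse_append]
  have : inTow (tow j) = true := inTow_iff.2 ⟨j, rfl⟩
  simp [this]

theorem lst_succ {l : ℕ} (h : inTow (l + 1) = false) : lst (l + 1) = lst l := by
  unfold lst
  rw [List.range_succ, List.filter_append]
  simp [h]

theorem lst_eq {j l : ℕ} (h1 : tow j ≤ l) (h2 : l < tow (j + 1)) : lst l = tow j := by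
  induction l, h1 using Nat.le_induction with
  | base => exact lst_self j
  | succ l hl ih =>
    rw [lst_succ, ih (by omega)]
    rw [Bool.eq_false_iff]
    intro h
    obtain ⟨k, hk⟩ := inTow_iff.1 h
    have h4 : j < k := tow_strictMono.lt_iff_lt.1 (by omega)
    have h5 : tow (j + 1) ≤ tow k := tow_strictMono.monotone h4
    omega

theorem lst_le (l : ℕ) : lst l ≤ l := by
  unfold lst
  cases h : ((List.range (l + 1)).filter inTow).reverse.head? with
  | none => simp
  | some a =>
    have h1 := List.mem_of_mem_head? (Option.mem_def.2 h)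
    rw [List.mem_reverse, List.mem_filter, List.mem_range] at h1
    simp only [Option.getD_some]
    omega

theorem exists_stage {l : ℕ} (hl : 1 ≤ l) : ∃ j, tow j ≤ l ∧ l < tow (j + 1) := by
  have h1 : ∃ j, l < tow j := ⟨l + 1, by have := le_tow (l + 1); omega⟩
  classical
  have h2 := Nat.find_spec h1
  have h3 : Nat.find h1 ≠ 0 := by
    intro h
    rw [h] at h2
    have : tow 0 = 1 := rfl
    omega
  obtain ⟨j, hj⟩ := Nat.exists_eq_succ_of_ne_zero h3
  refine ⟨j, ?_, by rw [← Nat.succ_eq_add_one, ← hj]; exact h2⟩
  have h4 := Nat.find_min h1 (m := j) (by omega)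
  omega

section

variable {α : Type} [TEnc α]

theorem poly_ones {n : α → ℕ} (hn : UPoly n) : Poly (fun a => List.replicate (n a) true) := by
  refine (NPC.Poly.map (F := fun _ _ => true) hn (NPC.Poly.const true)).congr fun a => ?_
  rw [List.map_replicate]

theorem poly_pos {x t : α → List Bool} (hx : Poly x) (ht : Poly t) :
    Poly (fun a => pos (x a) (t a)) :=
  NPC.Poly.append (poly_ones (UPoly.length hx)) (NPC.Poly.cons (NPC.Poly.const false)
    (NPC.Poly.append hx ht))

theorem poly_zp {n i : α → ℕ} (hn : UPoly n) (hi : UPoly i) : Poly (fun a => zp (n a) (i a)) :=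
  poly_pos (poly_ones hn) (NPC.Poly.cons (NPC.Poly.const false) (poly_ones hi))

theorem upoly_lst {n : α → ℕ} (hn : UPoly n) : UPoly (fun a => lst (n a)) := by
  have hn1 : UPoly (fun a => n a + 1) := UPoly.add hn (UPoly.const 1)
  have h1 : Poly (fun p : α × ℕ => inTow (min p.2 (n p.1))) := by
    refine poly_inTow (UPoly.of_le (n := fun p : α × ℕ => n p.1) ?_ (hn.comp
      (NPC.Poly.fst NPC.Poly.id)) fun p => min_le_right _ _)
    exact NPC.Poly.min (NPC.Poly.snd NPC.Poly.id) (hn.comp (NPC.Poly.fst NPC.Poly.id)).toPoly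
  have h2 : Poly (fun a => (List.range (n a + 1)).filter (fun k => inTow (min k (n a)))) :=
    NPC.Poly.filter (p := fun a k => inTow (min k (n a))) hn1.range h1
  have h3 : Poly (fun a => lst (n a)) := by
    refine (NPC.Poly.head?_getD (NPC.Poly.reverse h2) 0).congr fun a => ?_
    unfold lst
    congr 3
    refine List.filter_congr fun k hk => ?_
    rw [List.mem_range] at hk
    rw [min_eq_left (by omega)]
  exact UPoly.of_le h3 hn fun a => lst_le _

theorem poly_kenc (e : ℕ) (p : Polynomial ℕ) {x : α → List Bool} (hx : Poly x) :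
    Poly (fun a => kenc e (p.eval (x a).length) (x a)) :=
  NPC.Poly.append (NPC.Poly.const _) (NPC.Poly.cons (NPC.Poly.const false)
    (NPC.Poly.append (poly_ones ((UPoly.length hx).eval p)) (NPC.Poly.cons (NPC.Poly.const false)
      hx)))

end

theorem length_zpx (n i : ℕ) : (px (zp n i)).length = n := by
  unfold zp
  rw [px_pos]
  simp

theorem zp_mem (j i : ℕ) : zp (tow j) i ∈ AA ↔ (key (tow j)).getD i false = true := by
  rw [mem_AA_iff (j := j) (by rw [length_zpx]) (by rw [length_zpx]; exact tow_lt j)]
  unfold zp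
  rw [pt_pos, px_pos]
  constructor
  · rintro (⟨v, h, _⟩ | ⟨i', h1, _, h2⟩)
    · simp at h
    · have h3 := congrArg List.length h1
      simp only [List.length_cons, List.length_replicate] at h3
      obtain rfl : i = i' := by omega
      exact h2
  · intro h
    exact Or.inr ⟨i, rfl, rfl, h⟩

theorem key_eq (j : ℕ) : ((List.range (4 * tow j)).map (fun i => zp (tow j) i)).map (chi AA) =
    key (tow j) := by
  classical
  refine List.ext_getElem (by simp [length_key]) fun i h1 h2 => ?_
  rw [length_key] at h2
  rw [List.getElem_map, List.getElem_map, List.getElem_range]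
  have h3 := zp_mem j i
  rw [List.getD_eq_getElem _ _ (by rw [length_key]; exact h2)] at h3
  unfold chi
  by_cases h : zp (tow j) i ∈ AA
  · rw [h3.1 h]
    simpa using h
  · have h4 : (key (tow j))[i]'(by rw [length_key]; exact h2) = false := by
      rw [Bool.eq_false_iff]
      exact fun h5 => h (h3.2 h5)
    rw [h4]
    simpa using h

theorem hard {B : Set (List Bool)} (hB : InEXPTIME B) : IsP (chi AA) B := by
  classical
  obtain ⟨e, p, hp⟩ := K_hard hB
  have k0 : Poly (fun y : List Bool => unpair y) := poly_unpair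
  have k1 : Poly (fun y : List Bool => (unpair y).1) := k0.fst
  have k2 : Poly (fun y : List Bool => (unpair y).2) := k0.snd
  have hu : Poly (fun x : List Bool => kenc e (p.eval x.length) x) := poly_kenc e p NPC.Poly.id
  have hs : UPoly (fun x : List Bool => lst (kenc e (p.eval x.length) x).length) :=
    upoly_lst (UPoly.length hu)
  have h4s : UPoly (fun x : List Bool => 4 * lst (kenc e (p.eval x.length) x).length) :=
    UPoly.mul (UPoly.const 4) hs
  have hQ : Poly (fun x : List Bool =>
      (List.range (4 * lst (kenc e (p.eval x.length) x).length)).map (fun i =>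
        zp (lst (kenc e (p.eval x.length) x).length)
          (min i (4 * lst (kenc e (p.eval x.length) x).length)))) := by
    refine NPC.Poly.map (F := fun (x : List Bool) i =>
      zp (lst (kenc e (p.eval x.length) x).length)
        (min i (4 * lst (kenc e (p.eval x.length) x).length))) h4s.range ?_
    have h4s' := h4s.comp (f := fun q : List Bool × ℕ => q.1) (NPC.Poly.fst NPC.Poly.id)
    exact poly_zp (hs.comp (NPC.Poly.fst NPC.Poly.id)) (UPoly.of_le
      (NPC.Poly.min (NPC.Poly.snd NPC.Poly.id) h4s'.toPoly) h4s' fun q => min_le_right _ _)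
  have hH : Poly (fun q : List Bool × List Bool => pairBits q.1 q.2) :=
    poly_pairBits (NPC.Poly.fst NPC.Poly.id) (NPC.Poly.snd NPC.Poly.id)
  have hQ2 : Poly (fun y : List Bool =>
      [pos (kenc e (p.eval (unpair y).1.length) (unpair y).1) (true :: (unpair y).2)]) :=
    NPC.Poly.cons (poly_pos (poly_kenc e p k1) (NPC.Poly.cons (NPC.Poly.const true) k2))
      (NPC.Poly.const [])
  have f1 := IsFP.tt (A := chi AA) hQ hH
  have f2 := IsFP.tt (A := chi AA) hQ2 (NPC.Poly.snd (f := fun q : List Bool × List Bool => q)
    NPC.Poly.id)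
  refine ⟨_, IsFP.comp f2 f1, fun x => ?_⟩
  simp only [unpair_pairBits]
  set u := kenc e (p.eval x.length) x with hu'
  have hul : 1 ≤ u.length := by
    rw [hu']
    unfold kenc
    simp
    omega
  obtain ⟨j, hj1, hj2⟩ := exists_stage hul
  have hl : lst u.length = tow j := lst_eq hj1 hj2
  have hw : ((List.range (4 * lst u.length)).map (fun i => zp (lst u.length)
      (min i (4 * lst u.length)))).map (chi AA) = key (tow j) := by
    rw [← key_eq j, hl]
    congr 1
    refine List.map_congr_left fun i hi => ?_
    rw [List.mem_range] at hi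
    rw [min_eq_left hi.le]
  rw [hw, hp x, ← hu']
  have h1 : pos u (true :: key (tow j)) ∈ AA ↔ K u = true := by
    rw [mem_AA_iff (j := j) (by rw [px_pos]; exact hj1) (by rw [px_pos]; exact hj2), pt_pos,
      px_pos]
    constructor
    · rintro (⟨v, h, h2, h3⟩ | ⟨i, h, _⟩)
      · exact h3
      · simp at h
    · intro h
      exact Or.inl ⟨_, rfl, rfl, h⟩
  rw [← h1]
  unfold chi
  simp

end Pool.Agent.L0h33.MT
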