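import Pool.Agent.L0h33.MT.Comb
import Pool.Agent.L0h33.MT.Hard

/-!
# The set cannot be split into two Turing complete parts
-/

set_option autoImplicit false

namespace Pool.Agent.L0h33.MT

open Turing
open Pool.Agent.NPC (pairBits PolyTime InP)
open Pool.Agent.Y600.FB (chi)
open Pool.Agent.H620R2.Gauge (Alg IsP IsFP Oracle)
open Pool.Agent.H583R2 (gv U Code code_of_tm exists_index parse str decP decCode decCode_enc
  decP_enc U_length_le enc)

attribute [local irreducible] nk K

/-- A code for a function that can be computed in polynomial time. -/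
theorem exists_code {V : List Bool → List Bool} (hV : PolyTime V) :
    ∃ (c : Code) (P : Polynomial ℕ), ∀ x t, P.eval x.length ≤ t → gv c x t = V x := by
  obtain ⟨M⟩ := hV
  obtain ⟨c, m, hc⟩ := code_of_tm (f := V) (eb := (id : List Bool → List Bool))
    { tm := M.tm
      inputAlphabet := M.inputAlphabet
      outputAlphabet := M.outputAlphabet
      time := fun n => M.time.eval n
      outputsFun := M.outputsFun }
  refine ⟨c, Polynomial.C m * M.time, fun x t ht => ?_⟩
  rw [Polynomial.eval_mul, Polynomial.eval_C] at ht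
  unfold gv
  rw [hc x t ht]
  rfl

theorem exists_dec (t : Code × Code × Code) (n : ℕ) : ∃ j, n ≤ j ∧ dec j = t := by
  obtain ⟨j, h1, h2⟩ := exists_index (enc t) n
  refine ⟨j, h1, ?_⟩
  unfold dec
  rw [h2]
  exact decP_enc decCode_enc (decP_enc decCode_enc decCode_enc) t

/-- The oracle of a simulation. -/
def EE (S : Set (List Bool)) (b : Bool) : Set (List Bool) := {q | q ∈ AA ∧ (q ∈ S ↔ b = true)}

section

variable {E : Set (List Bool)} {M : Alg} {C : Ctx} {z : List Bool}

theorem ans_succ (C : Ctx) (z : List Bool) (r : ℕ) : ans C z (r + 1) = stp C z (ans C z r) :=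
  Function.iterate_succ_apply' _ _ _

theorem length_ans (C : Ctx) (z : List Bool) : ∀ r, (ans C z r).length ≤ r
  | 0 => by simp [ans]
  | r + 1 => by
    rw [ans_succ]
    have ih := length_ans C z r
    unfold stp
    split_ifs
    · simp
      exact ih
    · omega

theorem ans_fixed {C : Ctx} {z : List Bool} {i : ℕ} (h : stp C z (ans C z i) = ans C z i) :
    ∀ {F : ℕ}, i ≤ F → ans C z F = ans C z i := by
  intro F hF
  induction F, hF using Nat.le_induction with
  | base => rfl
  | succ F hF ih => rw [ans_succ, ih, h]

/-- The run of the oracle algorithm and the simulation. -/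
theorem sim_run {P : ℕ} (hPF : P ≤ clk C.1 C.2.1)
    (hD : ∀ a : List Bool, a.length ≤ P → ask C z a = M.D (pairBits z a))
    (hO : ∀ r < P, ∀ q, ask C z (ans C z r) = false :: q → oq C q = chi E q) :
    ∀ (k i : ℕ) (o : List Bool), i + k = P → M.run (chi E) z k (ans C z i) = some o →
      (outb C z = true ↔ o = [true])
  | 0, i, o, _, h => by simp [Alg.run] at h
  | k + 1, i, o, hi, h => by
    have hlen : (ans C z i).length ≤ P := (length_ans C z i).trans (by omega)
    have hask := hD _ hlen
    unfold Alg.run at h
    rcases hq : M.D (pairBits z (ans C z i)) with _ | ⟨b, q⟩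
    · rw [hq] at h hask
      have hs : stp C z (ans C z i) = ans C z i := by
        unfold stp
        rw [hask]
        simp
      have hF := ans_fixed hs (F := clk C.1 C.2.1) (by omega)
      have ho : o = [] := by simpa using h.symm
      unfold outb
      rw [hF, hask, ho]
      simp
    · rw [hq] at h hask
      cases b with
      | true =>
        have hs : stp C z (ans C z i) = ans C z i := by
          unfold stp
          rw [hask]
          simp
        have hF := ans_fixed hs (F := clk C.1 C.2.1) (by omega)
        have ho : o = q := by simpa using h.symm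
        unfold outb
        rw [hF, hask, ho]
        simp
      | false =>
        have hs : stp C z (ans C z i) = ans C z i ++ [chi E q] := by
          rw [← hO i (by omega) q hask]
          unfold stp
          rw [hask]
          simp
        refine sim_run hPF hD hO k (i + 1) o (by omega) ?_
        rw [ans_succ, hs]
        exact h

end

theorem length_zp (n i : ℕ) : (zp n i).length = 2 * n + 2 + i := by
  unfold zp pos
  simp
  omega

/-- The conditions for a large stage. -/
structure Big (P Pc PS : Polynomial ℕ) (n : ℕ) : Prop where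
  rounds : P.eval (6 * n + 2) ≤ 2 ^ n
  clock : Pc.eval (2 * (6 * n + 2) + 1 + P.eval (6 * n + 2)) ≤ 2 ^ n
  qlen : 2 * (6 * n + 2) + 1 + P.eval (6 * n + 2) +
    Pc.eval (2 * (6 * n + 2) + 1 + P.eval (6 * n + 2)) < 2 ^ n
  sclock : PS.eval (2 * (6 * n + 2) + 1 + P.eval (6 * n + 2) +
    Pc.eval (2 * (6 * n + 2) + 1 + P.eval (6 * n + 2))) ≤ 2 ^ n
  count : 4 * n * 2 ^ n + 1 < 2 ^ (2 * n - 1)
  pos : 1 ≤ n

theorem eval_mono' (P : Polynomial ℕ) {m n : ℕ} (h : m ≤ n) : P.eval m ≤ P.eval n :=
  Pool.Agent.NPC.eval_mono P h

theorem eventually_big (P Pc PS : Polynomial ℕ) : ∀ᶠ n in Filter.atTop, Big P Pc PS n := by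
  set L : Polynomial ℕ := 6 * Polynomial.X + 2 with hL
  have eL : ∀ n, L.eval n = 6 * n + 2 := fun n => by simp [hL]
  set Y : Polynomial ℕ := 2 * L + 1 + P.comp L with hY
  have eY : ∀ n, Y.eval n = 2 * (6 * n + 2) + 1 + P.eval (6 * n + 2) := fun n => by
    simp [hY, Polynomial.eval_comp, eL]
  have eZ : ∀ n, (Y + Pc.comp Y).eval n = 2 * (6 * n + 2) + 1 + P.eval (6 * n + 2) +
      Pc.eval (2 * (6 * n + 2) + 1 + P.eval (6 * n + 2)) := fun n => by
    rw [Polynomial.eval_add, Polynomial.eval_comp, eY]
  filter_upwards [poly_lt (P.comp L), poly_lt (Pc.comp Y), poly_lt (Y + Pc.comp Y),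
    poly_lt (PS.comp (Y + Pc.comp Y)), poly_lt (8 * Polynomial.X + 4 : Polynomial ℕ),
    Filter.eventually_ge_atTop 1] with n h1 h2 h3 h4 h5 h6
  rw [Polynomial.eval_comp, eL] at h1
  rw [Polynomial.eval_comp, eY] at h2
  rw [eZ] at h3
  rw [Polynomial.eval_comp, eZ] at h4
  refine ⟨h1.le, h2.le, h3, h4.le, ?_, h6⟩
  have e5 : (8 * Polynomial.X + 4 : Polynomial ℕ).eval n = 8 * n + 4 := by simp
  rw [e5] at h5
  have h7 : 2 ^ (2 * n - 1) * 2 = 2 ^ n * 2 ^ n := by
    rw [← pow_succ, ← pow_add]
    congr 1
    omega
  nlinarith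

/-- The simulation of an oracle algorithm for `AA` in a large stage computes the key. -/
theorem outs_eq {S : Set (List Bool)} {VS : List Bool → List Bool} {cS c0 c1 : Code}
    {PS Pc : Polynomial ℕ} (hS : ∀ x, x ∈ S ↔ VS x = [true])
    (hcS : ∀ x t, PS.eval x.length ≤ t → gv cS x t = VS x) {M : Alg} {j : ℕ}
    (hj : dec j = (cS, c0, c1)) (hb : Big M.p Pc PS (tow j))
    (hc : ∀ x t, Pc.eval x.length ≤ t →
      gv (if sid (2 ^ ((tow j + 1) * (tow j + 1))) (tow j) cS then c0 else c1) x t = M.D x)
    (hM : ∀ x, ∃ o, M.out (chi (EE S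
      (!(sid (2 ^ ((tow j + 1) * (tow j + 1))) (tow j) cS)))) x = some o ∧
      (x ∈ AA ↔ o = [true])) : False := by
  set n := tow j with hn
  set N := 2 ^ ((n + 1) * (n + 1)) with hN
  set sd := sid N n cS with hsd
  set C : Ctx := ctx N n (hist n) (cS, c0, c1) with hC
  set B := bs N n cS with hB
  have hNn : 2 ^ n ≤ N := Nat.pow_le_pow_right (by norm_num) (by nlinarith)
  have hN2 : 2 ^ (2 * n - 1) ≤ N := Nat.pow_le_pow_right (by norm_num) (by
    have : 2 * n - 1 ≤ (n + 1) * (n + 1) := by
      have : 2 * n ≤ (n + 1) * (n + 1) := by nlinarith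
      omega
    exact this)
  have hclk : clk N n = 2 ^ n := by
    unfold clk
    exact min_eq_left hNn
  have hBl : B.length = 4 * n := by
    rw [hB]
    unfold bs msk
    split_ifs <;> simp
  have hcnt : 2 * n ≤ cnt B := by
    rw [hB]
    unfold bs
    by_cases h : sid N n cS = true
    · rw [if_pos h]
      unfold sid at h
      rw [decide_eq_true_eq] at h
      omega
    · rw [if_neg h]
      unfold sid at h
      rw [decide_eq_true_eq] at h
      have h1 := cnt_not (msk N n cS)
      have h2 : (msk N n cS).length = 4 * n := by simp [msk]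
      omega
  have hkey : key n = nkC C B := by
    unfold key
    rw [← hN]
    have h1 : nk N n (hist n) = nkC (ctx N n (hist n) (dec (hist n).length))
        (bs N n (dec (hist n).length).1) := by
      with_unfolding_all rfl
    rw [h1, length_hist, hj]
  -- the key
  obtain ⟨w, hw, hwc, hwb⟩ : ∃ w, key n = w ∧ w ∈ cands N n B ∧ w ∉ bad C B := by
    have hX : (bad C B).length < 2 ^ (2 * n - 1) := by
      have h1 : (bad C B).length = 4 * n * 2 ^ n + 1 := by
        unfold bad
        have e1 : C.2.1 = n := rfl
        rw [List.length_cons, List.length_flatMap, e1]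
        have e2 : ∀ i, (qk C (zp n i)).length = 2 ^ n := by
          intro i
          unfold qk
          rw [List.length_map, List.length_range]
          exact hclk
        simp [e2]
      rw [h1]
      exact hb.count
    obtain ⟨w, hw1, hw2⟩ := exists_key hBl hcnt hb.pos hN2 hX
    cases hf : (cands N n B).find? (fun w => !((bad C B).any (fun v => v == w))) with
    | none =>
      rw [List.find?_eq_none] at hf
      have h1 := hf w hw1
      simp only [Bool.not_eq_true', Bool.not_eq_false, List.any_eq_true, beq_iff_eq] at h1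
      obtain ⟨v, hv, rfl⟩ := h1
      exact absurd hv hw2
    | some w' =>
      refine ⟨w', ?_, List.mem_of_find?_eq_some hf, fun h => ?_⟩
      · rw [hkey]
        unfold nkC
        have e1 : C.1 = N := rfl
        have e2 : C.2.1 = n := rfl
        rw [e1, e2, hf]
        rfl
      · have h1 := List.find?_some hf
        simp only [Bool.not_eq_true', List.any_eq_false, beq_iff_eq] at h1
        exact h1 w' h rfl
  have hwsup : ∀ i, w.getD i false = true → i < 4 * n ∧ B.getD i false = true := by
    intro i hi
    unfold cands at hwc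
    rw [List.mem_map] at hwc
    obtain ⟨k, _, rfl⟩ := hwc
    exact spread_support hi
  have hwl : w.length = 4 * n := by
    rw [← hw]
    exact length_key n
  -- the places
  have hBi : ∀ i < 4 * n, B.getD i false = true → (zp n i ∈ S ↔ sd = true) := by
    intro i hi h
    have h1 : (msk N n cS).getD i false = (gv cS (zp n i) (clk N n) == [true]) := by
      unfold msk
      rw [List.getD_eq_getElem _ _ (by simpa using hi), List.getElem_map, List.getElem_range]
    have h2 : gv cS (zp n i) (clk N n) = VS (zp n i) := by
      refine hcS _ _ ?_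
      rw [hclk]
      refine (eval_mono' PS ?_).trans hb.sclock
      rw [length_zp]
      omega
    rw [h2] at h1
    rw [hB] at h
    unfold bs at h
    rw [hS]
    by_cases hs : sid N n cS = true
    · rw [if_pos hs, h1] at h
      rw [hsd, hs]
      simpa using h
    · rw [if_neg hs] at h
      have h3 : ((msk N n cS).map (fun b => !b)).getD i false = !((msk N n cS).getD i false) := by
        have hl : i < (msk N n cS).length := by simpa [msk] using hi
        rw [List.getD_eq_getElem _ _ (by simpa using hl), List.getD_eq_getElem _ _ hl,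
          List.getElem_map]
      rw [h3, h1] at h
      rw [hsd]
      simp only [Bool.not_eq_true', beq_eq_false_iff_ne, ne_eq] at h
      simp [h, hs]
  -- the simulation
  have hsim : ∀ i < 4 * n, (outb C (zp n i) = true ↔ zp n i ∈ AA) := by
    intro i hi
    set z := zp n i with hz
    have hzl : z.length ≤ 6 * n + 2 := by
      rw [hz, length_zp]
      omega
    set P := M.p.eval z.length with hP
    have hP1 : P ≤ M.p.eval (6 * n + 2) := eval_mono' _ hzl
    have hPF : P ≤ clk C.1 C.2.1 := by
      have e : clk C.1 C.2.1 = 2 ^ n := hclk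
      rw [e]
      exact hP1.trans hb.rounds
    have hyl : ∀ a : List Bool, a.length ≤ P → (pairBits z a).length ≤
        2 * (6 * n + 2) + 1 + M.p.eval (6 * n + 2) := by
      intro a ha
      have : (pairBits z a).length = 2 * z.length + 1 + a.length := by
        unfold pairBits
        simp
        omega
      omega
    have hD : ∀ a : List Bool, a.length ≤ P → ask C z a = M.D (pairBits z a) := by
      intro a ha
      refine hc _ _ ?_
      have e : clk C.1 C.2.1 = 2 ^ n := hclk
      rw [e]
      exact (eval_mono' Pc (hyl a ha)).trans hb.clock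
    obtain ⟨o, ho, ho2⟩ := hM z
    rw [ho2]
    refine sim_run (E := EE S (!sd)) hPF hD (fun r hr q hq => ?_) P 0 o (by omega) ho
    have hlen := length_ans C z r
    have hq2 : M.D (pairBits z (ans C z r)) = false :: q := by
      rw [← hD _ (by omega), hq]
    have hql : q.length < 2 * (6 * n + 2) + 1 + M.p.eval (6 * n + 2) +
        Pc.eval (2 * (6 * n + 2) + 1 + M.p.eval (6 * n + 2)) := by
      have h1 := hyl (ans C z r) (by omega)
      have h2 := hc (pairBits z (ans C z r)) (Pc.eval (pairBits z (ans C z r)).length) le_rfl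
      have h3 := U_length_le (if sd then c0 else c1) (pairBits z (ans C z r))
        (Pc.eval (pairBits z (ans C z r)).length)
      unfold gv at h2
      rw [h2, hq2, List.length_cons] at h3
      have h4 := eval_mono' Pc h1
      omega
    have hqS : gv cS q (clk N n) = VS q := by
      refine hcS _ _ ?_
      rw [hclk]
      exact (eval_mono' PS hql.le).trans hb.sclock
    have hq2n : q.length < 2 ^ n := hql.trans hb.qlen
    have hpx := length_px_le q
    have hoq : oq C q = (memB (Kc N (px q)) n (hist n) q && ((VS q == [true]) == !sd)) := by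
      rw [← hqS]
      rfl
    rw [hoq]
    classical
    unfold chi
    rcases lt_or_ge (px q).length n with hlt | hge
    · have h1 : Kc N (px q) = K (px q) := by
        refine Kc_eq ?_
        exact Nat.pow_le_pow_right (by norm_num) (Nat.mul_le_mul (by omega) (by omega))
      have h2 := mem_AA (n := n) (q := q) hlt
      rw [h1]
      have h3 := hS q
      rw [Bool.eq_iff_iff, decide_eq_true_eq, Bool.and_eq_true, ← h2]
      unfold EE
      rw [Set.mem_setOf_eq, h3]
      refine and_congr_right fun _ => ?_
      rw [beq_iff_eq, Bool.eq_iff_iff, beq_iff_eq]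
    · rw [memB_ge hge, Bool.false_and]
      symm
      rw [decide_eq_false_iff_not]
      rintro ⟨hqA, hqE⟩
      rcases (mem_AA_iff (j := j) hge (by
        have e : tow (j + 1) = 2 ^ n := rfl
        omega)).1 hqA with ⟨v, h1, h2, _⟩ | ⟨i', h1, h2, h3⟩
      · refine hwb ?_
        rw [← hw, ← h2]
        unfold bad
        refine List.mem_cons_of_mem _ (List.mem_flatMap.2 ⟨i, List.mem_range.2 hi, ?_⟩)
        unfold qk
        refine List.mem_map.2 ⟨r, List.mem_range.2 (by omega), ?_⟩
        have e : C.2.1 = n := rfl
        rw [e, ← hz, hq, List.tail_cons, h1, List.tail_cons]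
      · rw [← hn, hw] at h3
        obtain ⟨h4, h5⟩ := hwsup i' h3
        have h6 : q = zp n i' := by
          rw [eq_pos (u := q) (by rw [h1]; simp), h1, h2]
          rfl
        have h7 := hBi i' h4 h5
        rw [← h6, hqE] at h7
        cases hsd' : sd <;> simp [hsd'] at h7
  -- the contradiction
  refine hwb ?_
  have h1 : outs C B = w := by
    refine List.ext_getElem (by
      rw [hwl]
      unfold outs
      rw [List.length_map, List.length_range]
      rfl) fun i h1 h2 => ?_
    rw [hwl] at h2
    have e1 : (outs C B)[i] = (B.getD i false && outb C (zp n i)) := by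
      unfold outs
      rw [List.getElem_map, List.getElem_range]
      rfl
    have e2 : w[i]'(by rw [hwl]; exact h2) = w.getD i false := by
      rw [List.getD_eq_getElem _ _ (by rw [hwl]; exact h2)]
    rw [e1, e2, Bool.eq_iff_iff, Bool.and_eq_true, hsim i h2, hn, zp_mem, ← hn, hw]
    exact ⟨fun h => h.2, fun h => ⟨(hwsup i h).2, h⟩⟩
  unfold bad
  rw [h1]
  exact List.mem_cons_self

/-- There is no polynomial-time splitting. -/
theorem not_split {S : Set (List Bool)} (hS : InP S) (h0 : IsP (chi (AA \ S)) AA)
    (h1 : IsP (chi (AA ∩ S)) AA) : False := by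
  obtain ⟨VS, hVS, hS⟩ := hS
  obtain ⟨V0, ⟨M0, hM0⟩, hV0⟩ := h0
  obtain ⟨V1, ⟨M1, hM1⟩, hV1⟩ := h1
  obtain ⟨cS, PS, hcS⟩ := exists_code hVS
  obtain ⟨c0, P0, hc0⟩ := exists_code M0.poly
  obtain ⟨c1, P1, hc1⟩ := exists_code M1.poly
  obtain ⟨n0, hn0⟩ := Filter.eventually_atTop.1
    ((eventually_big M0.p P0 PS).and (eventually_big M1.p P1 PS))
  obtain ⟨j, hj, hdec⟩ := exists_dec (cS, c0, c1) n0
  have hb := hn0 (tow j) (hj.trans (le_tow j))
  have e0 : EE S false = AA \ S := by
    ext q
    simp [EE]
  have e1 : EE S true = AA ∩ S := by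
    ext q
    simp [EE]
  cases hsd : sid (2 ^ ((tow j + 1) * (tow j + 1))) (tow j) cS with
  | true =>
    refine outs_eq (M := M0) hS hcS hdec hb.1 (fun x t ht => ?_) fun x => ?_
    · rw [hsd]
      exact hc0 x t ht
    · rw [hsd, Bool.not_true, e0]
      exact ⟨V0 x, hM0 x, hV0 x⟩
  | false =>
    refine outs_eq (M := M1) hS hcS hdec hb.2 (fun x t ht => ?_) fun x => ?_
    · rw [hsd]
      exact hc1 x t ht
    · rw [hsd, Bool.not_false, e1]
      exact ⟨V1 x, hM1 x, hV1 x⟩

end Pool.Agent.L0h33.MT
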