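import Pool.Agent.L0h33.MT.Hist
import Pool.Agent.H820R2.SS.Exp

/-!
# The set is in EXPTIME
-/

set_option autoImplicit false

namespace Pool.Agent.L0h33.MT

open Turing Pool.Agent.H583R2 Pool.Agent.H820R2.SS

attribute [local irreducible] nk K

/-- The characteristic function of the set. -/
def fA (u : List Bool) : Bool := memB (K (px u)) (u.length + 1) (hist (u.length + 1)) u

theorem mem_AA_fA (u : List Bool) : u ∈ AA ↔ fA u = true := Iff.rfl

theorem prog_eq (u : List Bool) : encB (fA u) = prog (u, 2 ^ ((u.length + 1) * (u.length + 1))) := by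
  unfold prog fA encB
  simp only
  rw [histC_eq _ _ le_rfl, Kc_eq]
  refine Nat.pow_le_pow_right (by norm_num) ?_
  have := length_px_le u
  exact Nat.mul_le_mul (by omega) (by omega)

theorem exp_bound (k : ℕ) (T : ℕ → ℕ)
    (hT : ∀ n, T n ≤ k * (n + 2 ^ ((n + 1) * (n + 1)) + 2) ^ k + k) :
    ∃ p : Polynomial ℕ, ∀ n, T n ≤ 2 ^ p.eval n := by
  refine ⟨Polynomial.C k * ((Polynomial.X + Polynomial.C 1) * (Polynomial.X + Polynomial.C 1) +
      Polynomial.X + Polynomial.C 3) + Polynomial.C (2 * k + 1), fun n => ?_⟩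
  refine (hT n).trans ?_
  simp only [Polynomial.eval_add, Polynomial.eval_mul, Polynomial.eval_C, Polynomial.eval_X]
  have h1 : n + 2 ^ ((n + 1) * (n + 1)) + 2 ≤ 2 ^ ((n + 1) * (n + 1) + n + 3) := by
    have h2 : n < 2 ^ n := Nat.lt_two_pow_self
    have h3 : 1 ≤ 2 ^ ((n + 1) * (n + 1)) := Nat.one_le_two_pow
    have h4 : 2 ^ ((n + 1) * (n + 1) + n + 3) = 8 * (2 ^ ((n + 1) * (n + 1)) * 2 ^ n) := by
      rw [pow_add, pow_add]
      ring
    have h5 : 1 ≤ 2 ^ n := Nat.one_le_two_pow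
    rw [h4]
    nlinarith [Nat.mul_le_mul h3 (le_refl (2 ^ n)), Nat.mul_le_mul
      (le_refl (2 ^ ((n + 1) * (n + 1)))) h5]
  have h2 := Nat.pow_le_pow_left h1 k
  rw [← pow_mul] at h2
  have h3 : k < 2 ^ k := Nat.lt_two_pow_self
  generalize hE : (n + 1) * (n + 1) + n + 3 = E at h2 ⊢
  generalize (n + 2 ^ ((n + 1) * (n + 1)) + 2) ^ k = Y at h2 ⊢
  have h4 : 2 ^ (k * E + (2 * k + 1)) = 2 ^ (E * k) * 2 ^ k * 2 ^ k * 2 := by
    rw [← pow_add, ← pow_add, ← pow_succ]
    congr 1
    ring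
  rw [h4]
  have h5 : 1 ≤ 2 ^ (E * k) := Nat.one_le_two_pow
  have h6 : 1 ≤ 2 ^ k := Nat.one_le_two_pow
  have h7 : k * Y ≤ 2 ^ k * 2 ^ (E * k) := Nat.mul_le_mul h3.le h2
  have h8 : 2 ^ k * 2 ^ (E * k) ≤ 2 ^ (E * k) * 2 ^ k * 2 ^ k := by
    nlinarith [Nat.mul_le_mul (le_refl (2 ^ (E * k) * 2 ^ k)) h6]
  have h9 : k ≤ 2 ^ (E * k) * 2 ^ k * 2 ^ k := by
    nlinarith [Nat.mul_le_mul h5 h6, Nat.mul_le_mul (Nat.mul_le_mul h5 h6) h3.le]
  omega

theorem AA_exp : InEXPTIME AA := by
  have hm : PF (fun x : List Bool => (x.length + 1) * (x.length + 1)) :=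
    PF.mul (PF.succ (PF.length PF.id)) (PF.succ (PF.length PF.id))
  obtain ⟨k, M, hM⟩ := tm_exp (f := fA) encB (fun n => (n + 1) * (n + 1)) hm pf_prog prog_eq
  obtain ⟨p, hp⟩ := exp_bound k M.time hM
  exact ⟨fun x => [fA x], { tm := M.tm
                            inputAlphabet := M.inputAlphabet
                            outputAlphabet := M.outputAlphabet
                            time := M.time
                            outputsFun := M.outputsFun }, p, hp, fun x => by
    rw [mem_AA_fA]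
    simp⟩

/-- The code of a pair of a program and an input, with padding. -/
def kenc (e k : ℕ) (x : List Bool) : List Bool :=
  List.replicate e true ++ false :: (List.replicate k true ++ false :: x)

theorem K_kenc (e k : ℕ) (x : List Bool) :
    K (kenc e k x) = bvF e x (2 ^ ((e + 1) * (k + x.length + 2))) := by
  unfold K kenc
  rw [dE_rep, rst_rep, rst_rep]
  have : (List.replicate k true ++ false :: x).length + 1 = k + x.length + 2 := by
    simp
    omega
  rw [this]

/-- The universal set is hard for EXPTIME. -/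
theorem K_hard {B : Set (List Bool)} (hB : InEXPTIME B) : ∃ (e : ℕ) (p : Polynomial ℕ),
    ∀ x, x ∈ B ↔ K (kenc e (p.eval x.length) x) = true := by
  obtain ⟨V, M, p, hp, hV⟩ := hB
  obtain ⟨cd, m, hcd⟩ := code_of_tm M
  obtain ⟨e, he, hme⟩ := exists_mE cd m
  refine ⟨e, p, fun x => ?_⟩
  rw [hV, K_kenc]
  unfold bvF
  rw [hme, hcd x]
  · simp
  · have h1 := hp x.length
    have h2 := (Nat.lt_two_pow_self (n := m)).le
    calc m * M.time x.length ≤ 2 ^ m * 2 ^ p.eval x.length := Nat.mul_le_mul h2 h1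
      _ = 2 ^ (m + p.eval x.length) := (pow_add _ _ _).symm
      _ ≤ _ := by
        refine Nat.pow_le_pow_right (by norm_num) ?_
        nlinarith [Nat.zero_le (e * (p.eval x.length + x.length)), Nat.zero_le x.length]

end Pool.Agent.L0h33.MT
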