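import Pool.Agent.L0h33.MT.Prog
import Pool.Agent.L0h33.MT.Tow

/-!
# Histories
-/

set_option autoImplicit false

namespace Pool.Agent.L0h33.MT

open Pool.Agent.H583R2

attribute [local irreducible] nk K

theorem cap_iter (m : ℕ) : ∀ j, (fun a => min (2 ^ a) m)^[j] (min 1 m) = min (tow j) m
  | 0 => rfl
  | j + 1 => by
    rw [Function.iterate_succ_apply', cap_iter m j]
    change min (2 ^ min (tow j) m) m = min (2 ^ tow j) m
    rcases le_total (tow j) m with h | h
    · rw [min_eq_left h]
    · rw [min_eq_right h]
      have h1 : m ≤ 2 ^ m := Nat.lt_two_pow_self.le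
      have h2 : 2 ^ m ≤ 2 ^ tow j := Nat.pow_le_pow_right (by norm_num) h
      rw [min_eq_right h1, min_eq_right (h1.trans h2)]

theorem isT_iff {n : ℕ} : isT n = true ↔ ∃ k, n = tow k := by
  unfold isT
  rw [List.any_eq_true]
  have h0 : ∀ j, (fun a => min (2 ^ a) (n + 1))^[j] 1 = min (tow j) (n + 1) := by
    intro j
    have := cap_iter (n + 1) j
    rwa [min_eq_left (show 1 ≤ n + 1 by omega)] at this
  constructor
  · rintro ⟨j, _, hj⟩
    rw [decide_eq_true_eq, h0] at hj
    exact ⟨j, by omega⟩
  · rintro ⟨k, hk⟩
    refine ⟨k, List.mem_range.2 ?_, ?_⟩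
    · have := le_tow k
      omega
    · rw [decide_eq_true_eq, h0]
      omega

theorem isT_tow (k : ℕ) : isT (tow k) = true := isT_iff.2 ⟨k, rfl⟩

theorem hist_succ (L : ℕ) : hist (L + 1) =
    if isT L then (L, nk (2 ^ ((L + 1) * (L + 1))) L (hist L)) :: hist L else hist L := by
  unfold hist
  rw [List.range_succ, List.foldl_append]
  rfl

theorem histC_succ (M L : ℕ) : histC M (L + 1) =
    if isT L then (L, nk (min (2 ^ ((L + 1) * (L + 1))) M) L (histC M L)) :: histC M L
    else histC M L := by
  unfold histC
  rw [List.range_succ, List.foldl_append]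
  rfl

theorem histC_eq (M : ℕ) : ∀ L, 2 ^ (L * L) ≤ M → histC M L = hist L
  | 0, _ => by simp [histC, hist]
  | L + 1, h => by
    have h1 : 2 ^ (L * L) ≤ M := (Nat.pow_le_pow_right (by norm_num) (by nlinarith)).trans h
    rw [histC_succ, hist_succ, histC_eq M L h1, min_eq_left h]

/-- The next key. -/
def key (n : ℕ) : List Bool := nk (2 ^ ((n + 1) * (n + 1))) n (hist n)

theorem length_key (n : ℕ) : (key n).length = 4 * n := length_nk _ _ _

theorem kd_cons {e : ℕ × List Bool} {H : Hist} {l : ℕ} : kd (e :: H) l =
    if e.1 ≤ l then e else kd H l := by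
  unfold kd
  rw [List.find?_cons]
  by_cases h : e.1 ≤ l
  · simp [h]
  · simp [h]

theorem kd_succ {l n : ℕ} (h : l < n) : kd (hist (n + 1)) l = kd (hist n) l := by
  rw [hist_succ]
  split_ifs
  · rw [kd_cons, if_neg (by simpa using h)]
  · rfl

theorem kd_mono {l n m : ℕ} (h : l < n) (hnm : n ≤ m) : kd (hist m) l = kd (hist n) l := by
  induction m, hnm using Nat.le_induction with
  | base => rfl
  | succ m hm ih => rw [kd_succ (by omega), ih]

/-- The key which is valid for the lengths between two tower numbers. -/
theorem kd_stage {j l : ℕ} (h1 : tow j ≤ l) (h2 : l < tow (j + 1)) {m : ℕ} (hm : l < m) :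
    kd (hist m) l = (tow j, key (tow j)) := by
  have h3 : ∀ l, tow j ≤ l → l < tow (j + 1) → hist (l + 1) = hist (tow j + 1) := by
    intro l hl
    induction l, hl using Nat.le_induction with
    | base => intro _; rfl
    | succ l hl ih =>
      intro hlt
      rw [hist_succ, if_neg, ih (by omega)]
      rw [Bool.not_eq_true, Bool.eq_false_iff]
      intro h
      obtain ⟨k, hk⟩ := isT_iff.1 h
      have h4 : j < k := tow_strictMono.lt_iff_lt.1 (by omega)
      have h5 : tow (j + 1) ≤ tow k := tow_strictMono.monotone h4
      omega
  rw [kd_mono (Nat.lt_succ_self l) (show l.succ ≤ m from hm), Nat.succ_eq_add_one, h3 l h1 h2,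
    hist_succ, if_pos (isT_tow j), kd_cons, if_pos h1]
  rfl

theorem length_hist (j : ℕ) : (hist (tow j)).length = j := by
  have h0 : ∀ j n, tow j ≤ n → n < tow (j + 1) → (hist n).length = if n = tow j then j else j + 1 := by
    intro j
    induction j with
    | zero =>
      intro n h1 h2
      have e0 : tow 0 = 1 := rfl
      have e1 : tow 1 = 2 := rfl
      rw [e0] at h1
      rw [zero_add, e1] at h2
      obtain rfl : n = 1 := by omega
      rw [hist_succ, if_neg]
      · simp [hist, e0]
      · rw [Bool.not_eq_true, Bool.eq_false_iff]
        intro h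
        obtain ⟨k, hk⟩ := isT_iff.1 h
        have := tow_pos k
        omega
    | succ j ih =>
      intro n hn
      induction n, hn using Nat.le_induction with
      | base =>
        intro _
        rw [if_pos rfl]
        obtain ⟨m, hm⟩ : ∃ m, tow (j + 1) = m + 1 := ⟨tow (j + 1) - 1, by
          have := tow_pos (j + 1)
          omega⟩
        have h1 : tow j ≤ m := by
          have := tow_lt j
          omega
        have h2 := ih m h1 (by omega)
        rw [hm, hist_succ]
        by_cases hmt : m = tow j
        · rw [if_pos hmt] at h2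
          rw [if_pos (by rw [hmt]; exact isT_tow j), List.length_cons, h2]
        · rw [if_neg hmt] at h2
          rw [if_neg, h2]
          rw [Bool.not_eq_true, Bool.eq_false_iff]
          intro h
          obtain ⟨k, hk⟩ := isT_iff.1 h
          have h4 : j < k := tow_strictMono.lt_iff_lt.1 (by omega)
          have h5 : tow (j + 1) ≤ tow k := tow_strictMono.monotone h4
          omega
      | succ n hn ih2 =>
        intro hlt
        have h2 := ih2 (by omega)
        rw [if_neg (by omega), hist_succ]
        by_cases hmt : n = tow (j + 1)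
        · rw [if_pos hmt] at h2
          rw [if_pos (by rw [hmt]; exact isT_tow _), List.length_cons, h2]
        · rw [if_neg hmt] at h2
          rw [if_neg, h2]
          rw [Bool.not_eq_true, Bool.eq_false_iff]
          intro h
          obtain ⟨k, hk⟩ := isT_iff.1 h
          have h4 : j + 1 < k := tow_strictMono.lt_iff_lt.1 (by omega)
          have h5 : tow (j + 1 + 1) ≤ tow k := tow_strictMono.monotone h4
          omega
  have := h0 j (tow j) le_rfl (tow_lt j)
  rwa [if_pos rfl] at this

/-! ### Positions -/

theorem dE_rep (n : ℕ) (l : List Bool) : dE (List.replicate n true ++ false :: l) = n := by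
  unfold dE
  rw [stripT_rep]

theorem rst_rep (n : ℕ) (l : List Bool) : rst (List.replicate n true ++ false :: l) = l := by
  unfold rst
  rw [dE_rep, List.drop_append]
  simp

theorem px_pos (x t : List Bool) : px (pos x t) = x := by
  unfold px pos
  rw [dE_rep, rst_rep]
  simp

theorem pt_pos (x t : List Bool) : pt (pos x t) = t := by
  unfold pt pos
  rw [dE_rep, rst_rep]
  simp

theorem dE_le (u : List Bool) : dE u ≤ u.length := by
  unfold dE
  induction u with
  | nil => simp [stripT]
  | cons b u ih => cases b <;> simp [stripT] <;> omega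

theorem length_rst_le (u : List Bool) : (rst u).length ≤ u.length := by
  unfold rst
  simp

theorem length_px_le (u : List Bool) : (px u).length ≤ u.length := by
  unfold px
  have := length_rst_le u
  simp
  omega

theorem eq_pos {u : List Bool} (h : pt u ≠ []) : u = pos (px u) (pt u) := by
  have h0 : ∀ u : List Bool, u = List.replicate (dE u) true ++ false :: rst u ∨ rst u = [] := by
    intro u
    induction u with
    | nil => exact Or.inr rfl
    | cons b u ih =>
      cases b with
      | false => exact Or.inl rfl
      | true =>
        have e1 : dE (true :: u) = dE u + 1 := rfl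
        have e2 : rst (true :: u) = rst u := by
          unfold rst
          rw [e1]
          rfl
        rw [e1, e2]
        rcases ih with ih | ih
        · left
          rw [List.replicate_succ, List.cons_append, ← ih]
        · exact Or.inr ih
  have h1 : dE u < (rst u).length := by
    unfold pt at h
    by_contra hcon
    exact h (List.drop_eq_nil_of_le (by omega))
  rcases h0 u with h2 | h2
  · unfold pos px pt
    rw [List.take_append_drop]
    rw [List.length_take, min_eq_left h1.le]
    exact h2
  · rw [h2] at h1
    simp at h1

theorem Kc_eq {N : ℕ} {u : List Bool} (h : 2 ^ ((u.length + 1) * (u.length + 1)) ≤ N) :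
    Kc N u = K u := by
  unfold Kc
  unfold K
  rw [min_eq_left]
  refine (Nat.pow_le_pow_right (by norm_num) ?_).trans h
  exact Nat.mul_le_mul (by have := dE_le u; omega) (by have := length_rst_le u; omega)

theorem memB_congr {k k' : Bool} {n n' : ℕ} {H H' : Hist} {q : List Bool}
    (h1 : (px q).length < n) (h2 : (px q).length < n')
    (h3 : kd H (px q).length = kd H' (px q).length) (h4 : k = k') :
    memB k n H q = memB k' n' H' q := by
  unfold memB
  rw [h3, h4]
  simp [h1, h2]

theorem memB_ge {k : Bool} {n : ℕ} {H : Hist} {q : List Bool} (h : n ≤ (px q).length) :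
    memB k n H q = false := by
  unfold memB
  simp [not_lt.2 h]

/-- Membership is determined by the history. -/
theorem mem_AA {n : ℕ} {q : List Bool} (h : (px q).length < n) :
    q ∈ AA ↔ memB (K (px q)) n (hist n) q = true := by
  unfold AA
  rw [Set.mem_setOf_eq]
  have h0 := length_px_le q
  have h1 : kd (hist (q.length + 1)) (px q).length = kd (hist ((px q).length + 1)) (px q).length :=
    kd_mono (Nat.lt_succ_self _) (by omega)
  have h2 : kd (hist n) (px q).length = kd (hist ((px q).length + 1)) (px q).length :=
    kd_mono (Nat.lt_succ_self _) h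
  rw [memB_congr (n := q.length + 1) (n' := n) (H := hist (q.length + 1)) (H' := hist n)
    (by omega) h (h1.trans h2.symm) rfl]

theorem mem_AA_iff {j : ℕ} {q : List Bool} (h1 : tow j ≤ (px q).length)
    (h2 : (px q).length < tow (j + 1)) : q ∈ AA ↔
      (∃ v, pt q = true :: v ∧ v = key (tow j) ∧ K (px q) = true) ∨
      (∃ i, pt q = false :: List.replicate i true ∧ px q = List.replicate (tow j) true ∧
        (key (tow j)).getD i false = true) := by
  rw [mem_AA (Nat.lt_succ_self (px q).length)]
  unfold memB
  rw [kd_stage h1 h2 (Nat.lt_succ_self _)]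
  rcases h : pt q with _ | ⟨b, t⟩
  · simp
  · cases b with
    | true => simp
    | false =>
      simp only [Nat.lt_succ_self, decide_true, Bool.true_and, List.isEmpty_cons, Bool.not_false,
        List.headD_cons, Bool.false_eq_true, if_false, List.tail_cons, Bool.and_eq_true,
        decide_eq_true_eq, beq_iff_eq, List.cons.injEq, reduceCtorEq, false_and, exists_const,
        true_and, false_or, exists_false]
      constructor
      · rintro ⟨h3, h4, h5, h6⟩
        exact ⟨t.length, h5, by rw [h3]; exact h4, h6⟩
      · rintro ⟨i, h3, h4, h5⟩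
        have h6 : (px q).length = tow j := by rw [h4]; simp
        have h7 : t.length = i := by rw [h3]; simp
        exact ⟨h6.symm, by rw [h6]; exact h4, by rw [h7]; exact h3, by rw [h7]; exact h5⟩

end Pool.Agent.L0h33.MT
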