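import Pool.Agent.L0h33.MT.Defs

/-!
# The decision procedure is polynomial in the available number of steps
-/

set_option autoImplicit false

namespace Pool.Agent.L0h33.MT

open Pool.Agent.H583R2

section

variable {α β : Type} [TEnc α] [TEnc β]

theorem pf_rst {u : α → List Bool} (hu : PF u) : PF (fun a => rst (u a)) :=
  PF.drop (PF.succ (PF.dE hu)) hu

theorem pf_px {u : α → List Bool} (hu : PF u) : PF (fun a => px (u a)) :=
  PF.take (PF.dE hu) (pf_rst hu)

theorem pf_pt {u : α → List Bool} (hu : PF u) : PF (fun a => pt (u a)) :=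
  PF.drop (PF.dE hu) (pf_rst hu)

theorem pf_pos {x t : α → List Bool} (hx : PF x) (ht : PF t) : PF (fun a => pos (x a) (t a)) :=
  PF.append (PF.replicate (PF.length hx) (PF.const true))
    (PF.cons (PF.const false) (PF.append hx ht))

theorem pf_Kc {N : α → ℕ} {u : α → List Bool} (hN : PF N) (hu : PF u) :
    PF (fun a => Kc (N a) (u a)) :=
  pf_bvF (PF.dE hu) (pf_rst (pf_rst hu))
    (pf_cexp (PF.mul (PF.succ (PF.dE hu)) (PF.succ (PF.length (pf_rst hu)))) hN)

theorem pf_isT {n : α → ℕ} (hn : PF n) : PF (fun a => isT (n a)) := by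
  have h1 : PF (fun p : α × ℕ => (fun v => min (2 ^ v) (n p.1 + 1))^[p.2] 1) := by
    have hn1 : PF (fun p : α × ℕ => n p.1 + 1) := PF.succ (hn.comp PF.fst)
    refine PF.iterateAdd (n := fun p : α × ℕ => p.2) (s := fun _ => 1)
      (f := fun p v => min (2 ^ v) (n p.1 + 1)) PF.snd (PF.const 1)
      (pf_cexp PF.snd (hn1.comp PF.fst))
      (inc := fun _ => 0) (bnd := fun p => sz (n p.1 + 1)) (PB.const 0) hn1.size ?_
    intro a st
    refine le_trans ?_ (le_max_right _ _)
    rw [sz_nat, sz_nat]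
    omega
  exact PF.any (l := fun a => List.range (n a + 1))
    (f := fun a j => decide ((fun v => min (2 ^ v) (n a + 1))^[j] 1 = n a))
    (PF.range (PF.succ hn)) (PF.natEq h1 (hn.comp PF.fst))

theorem pf_kd {H : α → Hist} {l : α → ℕ} (hH : PF H) (hl : PF l) :
    PF (fun a => kd (H a) (l a)) :=
  PF.getD (PF.find (l := H) (f := fun a (e : ℕ × List Bool) => decide (e.1 ≤ l a)) hH
    (PF.le (PF.fst' PF.snd) (hl.comp PF.fst))) (PF.const (0, []))

theorem pf_memB {k : α → Bool} {n : α → ℕ} {H : α → Hist} {q : α → List Bool} (hk : PF k)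
    (hn : PF n) (hH : PF H) (hq : PF q) : PF (fun a => memB (k a) (n a) (H a) (q a)) := by
  have hx := pf_px hq
  have ht := pf_pt hq
  have hl := PF.length hx
  have hkd := pf_kd hH hl
  have hT := PF.tail ht
  unfold memB
  exact PF.and (PF.lt hl hn) (PF.and (PF.not (PF.isEmpty ht))
    (PF.ite (PF.headD ht (PF.const false)) (PF.and (PF.beqStr hT (PF.snd' hkd)) hk)
      (PF.and (PF.natEq (PF.fst' hkd) hl) (PF.and
        (PF.beqStr hx (PF.replicate hl (PF.const true)))
        (PF.and (PF.beqStr hT (PF.replicate (PF.length hT) (PF.const true)))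
          (PF.listGetD (PF.length hT) (PF.snd' hkd) (PF.const false)))))))

theorem pf_clk {N n : α → ℕ} (hN : PF N) (hn : PF n) : PF (fun a => clk (N a) (n a)) :=
  pf_cexp hn hN

theorem pf_oq {C : α → Ctx} {q : α → List Bool} (hC : PF C) (hq : PF q) :
    PF (fun a => oq (C a) (q a)) := by
  have c1 := PF.fst' hC
  have c2 := PF.fst' (PF.snd' hC)
  have c3 := PF.fst' (PF.snd' (PF.snd' hC))
  have c4 := PF.fst' (PF.snd' (PF.snd' (PF.snd' hC)))
  have c6 := PF.snd' (PF.snd' (PF.snd' (PF.snd' (PF.snd' hC))))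
  exact PF.and (pf_memB (pf_Kc c1 (pf_px hq)) c2 c3 hq)
    (PF.beqBool (PF.beqStr (pf_gv c4 hq (pf_clk c1 c2)) (PF.const [true])) c6)

theorem pf_pairBits {x w : α → List Bool} (hx : PF x) (hw : PF w) :
    PF (fun a => Pool.Agent.NPC.pairBits (x a) (w a)) :=
  PF.append (PF.flatMap (l := x) (f := fun _ (b : Bool) => [true, b]) hx
    (PF.cons (PF.const true) (PF.cons PF.snd (PF.const [])))) (PF.cons (PF.const false) hw)

theorem pf_ask {C : α → Ctx} {z a' : α → List Bool} (hC : PF C) (hz : PF z) (ha : PF a') :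
    PF (fun a => ask (C a) (z a) (a' a)) := by
  have c1 := PF.fst' hC
  have c2 := PF.fst' (PF.snd' hC)
  have c5 := PF.fst' (PF.snd' (PF.snd' (PF.snd' (PF.snd' hC))))
  exact pf_gv c5 (pf_pairBits hz ha) (pf_clk c1 c2)

theorem pf_stp {C : α → Ctx} {z a' : α → List Bool} (hC : PF C) (hz : PF z) (ha : PF a') :
    PF (fun a => stp (C a) (z a) (a' a)) := by
  have h := pf_ask hC hz ha
  exact PF.ite (PF.not (PF.headD h (PF.const true)))
    (PF.append ha (PF.cons (pf_oq hC (PF.tail h)) (PF.const []))) ha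

theorem pf_ans {C : α → Ctx} {z : α → List Bool} {r : α → ℕ} (hC : PF C) (hz : PF z)
    (hr : PF r) : PF (fun a => ans (C a) (z a) (r a)) := by
  refine PF.iterateAdd (n := r) (s := fun _ => ([] : List Bool))
    (f := fun a s => stp (C a) (z a) s) hr (PF.const [])
    (pf_stp (hC.comp PF.fst) (hz.comp PF.fst) PF.snd)
    (inc := fun _ => 5) (bnd := fun _ => 0) (PB.const 5) (PB.const 0) ?_
  intro a st
  refine le_trans ?_ (le_max_left _ _)
  unfold stp
  split
  · have h1 := sz_append st [oq (C a) (ask (C a) (z a) st).tail]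
    have h2 := sz_bool (oq (C a) (ask (C a) (z a) st).tail)
    rw [sz_cons, sz_nil] at h1
    omega
  · omega

theorem pf_qk {C : α → Ctx} {z : α → List Bool} (hC : PF C) (hz : PF z) :
    PF (fun a => qk (C a) (z a)) := by
  have c1 := PF.fst' hC
  have c2 := PF.fst' (PF.snd' hC)
  have hC' : PF (fun p : α × ℕ => C p.1) := hC.comp PF.fst
  have hz' : PF (fun p : α × ℕ => z p.1) := hz.comp PF.fst
  exact PF.map (l := fun a => List.range (clk (C a).1 (C a).2.1))
    (f := fun a r => (pt (ask (C a) (z a) (ans (C a) (z a) r)).tail).tail)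
    (PF.range (pf_clk c1 c2))
    (PF.tail (pf_pt (PF.tail (pf_ask hC' hz' (pf_ans hC' hz' PF.snd)))))

theorem pf_outb {C : α → Ctx} {z : α → List Bool} (hC : PF C) (hz : PF z) :
    PF (fun a => outb (C a) (z a)) := by
  have c1 := PF.fst' hC
  have c2 := PF.fst' (PF.snd' hC)
  exact PF.beqStr (pf_ask hC hz (pf_ans hC hz (pf_clk c1 c2))) (PF.const [true, true])

theorem pf_zp {n i : α → ℕ} (hn : PF n) (hi : PF i) : PF (fun a => zp (n a) (i a)) :=
  pf_pos (PF.replicate hn (PF.const true))
    (PF.cons (PF.const false) (PF.replicate hi (PF.const true)))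

theorem pf_cnt {B : α → List Bool} (hB : PF B) : PF (fun a => cnt (B a)) :=
  PF.length (PF.filter (l := B) (f := fun _ (b : Bool) => b) hB PF.snd)

theorem pf_four {n : α → ℕ} (hn : PF n) : PF (fun a => 4 * n a) := PF.mul (PF.const 4) hn

theorem pf_msk {N n : α → ℕ} {c : α → Code} (hN : PF N) (hn : PF n) (hc : PF c) :
    PF (fun a => msk (N a) (n a) (c a)) := by
  have hN' : PF (fun p : α × ℕ => N p.1) := hN.comp PF.fst
  have hn' : PF (fun p : α × ℕ => n p.1) := hn.comp PF.fst
  have hc' : PF (fun p : α × ℕ => c p.1) := hc.comp PF.fst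
  exact PF.map (l := fun a => List.range (4 * n a))
    (f := fun a i => gv (c a) (zp (n a) i) (clk (N a) (n a)) == [true])
    (PF.range (pf_four hn))
    (PF.beqStr (pf_gv hc' (pf_zp hn' PF.snd) (pf_clk hN' hn')) (PF.const [true]))

theorem pf_sid {N n : α → ℕ} {c : α → Code} (hN : PF N) (hn : PF n) (hc : PF c) :
    PF (fun a => sid (N a) (n a) (c a)) :=
  PF.le (pf_four hn) (PF.mul (PF.const 2) (pf_cnt (pf_msk hN hn hc)))

theorem pf_bs {N n : α → ℕ} {c : α → Code} (hN : PF N) (hn : PF n) (hc : PF c) :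
    PF (fun a => bs (N a) (n a) (c a)) :=
  PF.ite (pf_sid hN hn hc) (pf_msk hN hn hc)
    (PF.map (l := fun a => msk (N a) (n a) (c a)) (f := fun _ (b : Bool) => !b)
      (pf_msk hN hn hc) (PF.not PF.snd))

theorem pf_ctx {N n : α → ℕ} {H : α → Hist} {c : α → Code × Code × Code} (hN : PF N) (hn : PF n)
    (hH : PF H) (hc : PF c) : PF (fun a => ctx (N a) (n a) (H a) (c a)) := by
  have h1 := PF.fst' hc
  have h2 := PF.fst' (PF.snd' hc)
  have h3 := PF.snd' (PF.snd' hc)
  have hs := pf_sid hN hn h1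
  exact PF.pair hN (PF.pair hn (PF.pair hH (PF.pair h1 (PF.pair (PF.ite hs h2 h3) (PF.not hs)))))

theorem pf_outs {C : α → Ctx} {B : α → List Bool} (hC : PF C) (hB : PF B) :
    PF (fun a => outs (C a) (B a)) := by
  have c2 := PF.fst' (PF.snd' hC)
  have hC' : PF (fun p : α × ℕ => C p.1) := hC.comp PF.fst
  have hB' : PF (fun p : α × ℕ => B p.1) := hB.comp PF.fst
  exact PF.map (l := fun a => List.range (4 * (C a).2.1))
    (f := fun a i => (B a).getD i false && outb (C a) (zp (C a).2.1 i))
    (PF.range (pf_four c2))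
    (PF.and (PF.listGetD PF.snd hB' (PF.const false))
      (pf_outb hC' (pf_zp (PF.fst' (PF.snd' hC')) PF.snd)))

theorem pf_bad {C : α → Ctx} {B : α → List Bool} (hC : PF C) (hB : PF B) :
    PF (fun a => bad (C a) (B a)) := by
  have c2 := PF.fst' (PF.snd' hC)
  have hC' : PF (fun p : α × ℕ => C p.1) := hC.comp PF.fst
  exact PF.cons (pf_outs hC hB) (PF.flatMap (l := fun a => List.range (4 * (C a).2.1))
    (f := fun a i => qk (C a) (zp (C a).2.1 i)) (PF.range (pf_four c2))
    (pf_qk hC' (pf_zp (PF.fst' (PF.snd' hC')) PF.snd)))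

theorem pf_spread {n : α → ℕ} {B t : α → List Bool} (hn : PF n) (hB : PF B) (ht : PF t) :
    PF (fun a => spread (n a) (B a) (t a)) := by
  have hB' : PF (fun p : α × ℕ => B p.1) := hB.comp PF.fst
  have ht' : PF (fun p : α × ℕ => t p.1) := ht.comp PF.fst
  exact PF.map (l := fun a => List.range (4 * n a))
    (f := fun a i => (B a).getD i false && (t a).getD (cnt ((B a).take i)) false)
    (PF.range (pf_four hn))
    (PF.and (PF.listGetD PF.snd hB' (PF.const false))
      (PF.listGetD (pf_cnt (PF.take PF.snd hB')) ht' (PF.const false)))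

theorem pf_cands {N n : α → ℕ} {B : α → List Bool} (hN : PF N) (hn : PF n) (hB : PF B) :
    PF (fun a => cands (N a) (n a) (B a)) := by
  have hn' : PF (fun p : α × ℕ => n p.1) := hn.comp PF.fst
  have hB' : PF (fun p : α × ℕ => B p.1) := hB.comp PF.fst
  exact PF.map (l := fun a => List.range (min (2 ^ (2 * n a - 1)) (N a)))
    (f := fun a k => spread (n a) (B a) (str k ++ [true]))
    (PF.range (pf_cexp (PF.pred (PF.mul (PF.const 2) hn)) hN))
    (pf_spread hn' hB' (PF.append (PF.str PF.snd) (PF.const [true])))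

theorem pf_nkC {C : α → Ctx} {B : α → List Bool} (hC : PF C) (hB : PF B) :
    PF (fun a => nkC (C a) (B a)) := by
  have c1 := PF.fst' hC
  have c2 := PF.fst' (PF.snd' hC)
  have hbad' : PF (fun p : α × List Bool => bad (C p.1) (B p.1)) := (pf_bad hC hB).comp PF.fst
  have h1 : PF (fun p : α × List Bool => (bad (C p.1) (B p.1)).any (fun v => v == p.2)) :=
    PF.any (l := fun p : α × List Bool => bad (C p.1) (B p.1)) (f := fun p v => v == p.2) hbad'
      (PF.beqStr PF.snd (PF.snd' PF.fst))
  exact PF.getD (PF.find (l := fun a => cands (C a).1 (C a).2.1 (B a))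
    (f := fun a w => !((bad (C a) (B a)).any (fun v => v == w))) (pf_cands c1 c2 hB)
    (PF.not h1)) (PF.replicate (pf_four c2) (PF.const false))

theorem pf_dec {j : α → ℕ} (hj : PF j) : PF (fun a => dec (j a)) := by
  have h : PF (fun t : Tr => decCode t) := PF.decCode PF.id
  exact PF.decP h (PF.decP h h PF.id) (PF.parse (PF.str hj))

theorem pf_nk {N n : α → ℕ} {H : α → Hist} (hN : PF N) (hn : PF n) (hH : PF H) :
    PF (fun a => nk (N a) (n a) (H a)) := by
  have hd := pf_dec (PF.length hH)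
  exact pf_nkC (pf_ctx hN hn hH hd) (pf_bs hN hn (PF.fst' hd))

end

@[simp] theorem length_spread (n : ℕ) (B t : List Bool) : (spread n B t).length = 4 * n := by
  simp [spread]

theorem length_nkC (C : Ctx) (B : List Bool) : (nkC C B).length = 4 * C.2.1 := by
  unfold nkC
  cases h : (cands C.1 C.2.1 B).find? (fun w => !((bad C B).any (fun v => v == w))) with
  | none => simp
  | some w =>
    have h1 := List.mem_of_find?_eq_some h
    unfold cands at h1
    rw [List.mem_map] at h1
    obtain ⟨k, _, rfl⟩ := h1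
    simp

theorem length_nk (N n : ℕ) (H : Hist) : (nk N n H).length = 4 * n := length_nkC _ _

theorem sz_strB (x : List Bool) : sz x ≤ 4 * x.length + 1 := sz_str_le x

theorem pf_histC {α : Type} [TEnc α] {M L : α → ℕ} (hM : PF M) (hL : PF L) :
    PF (fun a => histC (M a) (L a)) := by
  have hn : PF (fun p : α × Hist × ℕ => p.2.2) := PF.snd.comp PF.snd
  have hH : PF (fun p : α × Hist × ℕ => p.2.1) := PF.fst.comp PF.snd
  have hM' : PF (fun p : α × Hist × ℕ => M p.1) := hM.comp PF.fst
  refine PF.foldlAdd (l := fun a => List.range (L a)) (s := fun _ => ([] : Hist))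
    (f := fun a H n => if isT n then (n, nk (min (2 ^ ((n + 1) * (n + 1))) (M a)) n H) :: H
      else H) (PF.range hL) (PF.const [])
    (PF.ite (pf_isT hn) (PF.cons (PF.pair hn (pf_nk (pf_cexp
      (PF.mul (PF.succ hn) (PF.succ hn)) hM') hn hH)) hH) hH)
    (inc := fun a => 20 * sz (L a) + 20) (bnd := fun _ => 0)
    (((PB.const 20).mul hL.size).add (PB.const 20)) (PB.const 0) ?_
  intro a x hx st
  refine le_trans ?_ (le_max_left _ _)
  rw [List.mem_range] at hx
  split
  · have h1 := sz_strB (nk (min (2 ^ ((x + 1) * (x + 1))) (M a)) x st)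
    rw [length_nk] at h1
    rw [sz_cons, sz_pair, sz_nat, sz_nat]
    omega
  · omega

theorem pf_prog : PF prog := by
  have h1 : PF (fun p : List Bool × ℕ => p.1) := PF.fst
  have h2 : PF (fun p : List Bool × ℕ => p.2) := PF.snd
  have hl := PF.succ (PF.length h1)
  exact PF.cons (pf_memB (pf_Kc h2 (pf_px h1)) hl (pf_histC h2 hl) h1) (PF.const [])

end Pool.Agent.L0h33.MT
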